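import Pool.Agent.Helper93.Bez.Proj

/-!
# Families of quadratic forms and linear spaces of common zeros

`Tan I z` is the tangent space at `z` of the common zeros of the forms in `I`.
-/

namespace Pool.Agent.Helper80.Flats

open Finset

section

variable {V : Type*} [AddCommGroup V] [Module ℝ V]

/-- The tangent space at `z` of the common zeros of the forms in `I`. -/
def Tan (I : Submodule ℝ (LinearMap.BilinForm ℝ V)) (z : V) : Submodule ℝ V where
  carrier := {w | ∀ β ∈ I, β z w = 0}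
  add_mem' := by
    intro a b ha hb β hβ
    rw [map_add, ha β hβ, hb β hβ, add_zero]
  zero_mem' := by
    intro β _
    rw [map_zero]
  smul_mem' := by
    intro c a ha β hβ
    rw [map_smul, ha β hβ, smul_zero]

theorem mem_Tan {I : Submodule ℝ (LinearMap.BilinForm ℝ V)} {z w : V} :
    w ∈ Tan I z ↔ ∀ β ∈ I, β z w = 0 := Iff.rfl

theorem Tan_smul {I : Submodule ℝ (LinearMap.BilinForm ℝ V)} {z : V} {c : ℝ} (hc : c ≠ 0) :
    Tan I (c • z) = Tan I z := by
  ext w
  rw [mem_Tan, mem_Tan]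
  refine forall₂_congr fun β _ => ?_
  rw [map_smul, LinearMap.smul_apply, smul_eq_mul, mul_eq_zero]
  exact ⟨fun h => h.resolve_left hc, fun h => Or.inr h⟩

/-- The chain bound for points with levels. -/
theorem card_le_of_levels [FiniteDimensional ℝ V]
    {A : Type*} [Fintype A] (u : A → V) (lvl : A → ℕ)
    (hpair : ∀ s t (c : ℝ), u s = c • u t → s = t)
    (hT : ∀ (s : A) (t : V), (∀ β : LinearMap.BilinForm ℝ V, (∀ x y, β x y = β y x) →
      (∀ s', lvl s ≤ lvl s' → β (u s') (u s') = 0) → β (u s) t = 0) → ∃ c : ℝ, t = c • u s) :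
    Fintype.card A ≤ 2 ^ (Module.finrank ℝ V - 1) := by
  classical
  let e0 : Fin (Fintype.card A) ≃ A := (Fintype.equivFin A).symm
  let σ := Tuple.sort (lvl ∘ e0)
  have hmono : Monotone ((lvl ∘ e0) ∘ σ) := Tuple.monotone_sort _
  let e : Fin (Fintype.card A) → A := fun i => e0 (σ i)
  have heinj : Function.Injective e := e0.injective.comp σ.injective
  have hmono' : ∀ i j, i ≤ j → lvl (e i) ≤ lvl (e j) := fun i j hij => hmono hij
  refine Pool.Agent.Helper93.Bez.card_le_of_chain (fun i => u (e i))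
    (fun i j c h => heinj (hpair _ _ c h))
    (fun i =>
      { carrier := {β | (∀ x y, β x y = β y x) ∧ ∀ s', lvl (e i) ≤ lvl s' → β (u s') (u s') = 0}
        add_mem' := ?_
        zero_mem' := ?_
        smul_mem' := ?_ }) ?_ ?_ ?_
  · rintro β γ ⟨h1, h2⟩ ⟨h3, h4⟩
    refine ⟨fun x y => ?_, fun s' hs' => ?_⟩
    · rw [LinearMap.add_apply, LinearMap.add_apply, LinearMap.add_apply, LinearMap.add_apply, h1,
        h3]
    · rw [LinearMap.add_apply, LinearMap.add_apply, h2 s' hs', h4 s' hs', add_zero]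
  · exact ⟨fun x y => rfl, fun s' _ => rfl⟩
  · rintro c β ⟨h1, h2⟩
    refine ⟨fun x y => ?_, fun s' hs' => ?_⟩
    · rw [LinearMap.smul_apply, LinearMap.smul_apply, LinearMap.smul_apply, LinearMap.smul_apply,
        h1]
    · rw [LinearMap.smul_apply, LinearMap.smul_apply, h2 s' hs', smul_zero]
  · rintro i β ⟨h1, _⟩
    exact h1
  · rintro i j hij β ⟨_, h2⟩
    exact h2 _ (hmono' i j hij)
  · intro i t ht
    exact hT (e i) t fun β h1 h2 => ht β ⟨h1, h2⟩

/-- On a line of a linear space of common zeros the tangent space is small at all but finitely many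
points if it is small at one point. -/
theorem finite_bad [FiniteDimensional ℝ V] (I : Submodule ℝ (LinearMap.BilinForm ℝ V))
    (L : Submodule ℝ V) (hiso : ∀ β ∈ I, ∀ z ∈ L, ∀ w ∈ L, β z w = 0) {p q : V} (hp : p ∈ L)
    (hq : q ∈ L) (hT : Tan I p ≤ L) : {s : ℝ | ¬ Tan I (p + s • q) ≤ L}.Finite := by
  obtain ⟨W, hW⟩ := Submodule.exists_isCompl L
  let Λ : V → W →ₗ[ℝ] Module.Dual ℝ I := fun z =>
    { toFun := fun w =>
        { toFun := fun β => (β : LinearMap.BilinForm ℝ V) z w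
          map_add' := fun β γ => rfl
          map_smul' := fun c β => rfl }
      map_add' := fun w w' => by
        ext β
        simp
      map_smul' := fun c w => by
        ext β
        simp }
  have hΛ : ∀ z w (β : I), Λ z w β = (β : LinearMap.BilinForm ℝ V) z w := fun z w β => rfl
  have hinj : LinearMap.ker (Λ p) = ⊥ := by
    rw [Submodule.eq_bot_iff]
    intro w hw
    have h1 : (w : V) ∈ L := hT (fun β hβ => by
      have := congrArg (fun f : Module.Dual ℝ I => f ⟨β, hβ⟩) (LinearMap.mem_ker.1 hw)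
      simpa [hΛ] using this)
    have h2 : (w : V) ∈ L ⊓ W := ⟨h1, w.2⟩
    rw [hW.inf_eq_bot, Submodule.mem_bot] at h2
    exact Subtype.ext h2
  obtain ⟨π, hπ⟩ := LinearMap.exists_leftInverse_of_injective _ hinj
  let E1 : Module.End ℝ W := π.comp (Λ q)
  refine Set.Finite.subset (Set.Finite.preimage (f := fun s : ℝ => -s⁻¹) ?_
    (Module.End.finite_hasEigenvalue E1)) ?_
  · intro a _ b _ hab
    exact inv_injective (neg_injective hab)
  · intro s hs
    rw [Set.mem_setOf_eq, SetLike.not_le_iff_exists] at hs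
    obtain ⟨w, hw, hwL⟩ := hs
    have hwtop : w ∈ L ⊔ W := by rw [hW.sup_eq_top]; exact Submodule.mem_top
    obtain ⟨a, ha, b, hb, rfl⟩ := Submodule.mem_sup.1 hwtop
    have hb0 : b ≠ 0 := by
      rintro rfl
      exact hwL (by rwa [add_zero])
    have h1 : Λ p ⟨b, hb⟩ + s • Λ q ⟨b, hb⟩ = 0 := by
      ext β
      have h2 := hw β β.2
      have h3 : p + s • q ∈ L := L.add_mem hp (L.smul_mem s hq)
      rw [map_add, hiso β β.2 _ h3 _ ha, zero_add] at h2
      rw [LinearMap.add_apply, LinearMap.smul_apply, hΛ, hΛ, LinearMap.zero_apply]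
      rw [map_add, map_smul, LinearMap.add_apply, LinearMap.smul_apply] at h2
      exact h2
    have h2 := congrArg π h1
    have h3 : π (Λ p ⟨b, hb⟩) = ⟨b, hb⟩ := LinearMap.congr_fun hπ _
    rw [map_add, map_smul, h3, map_zero] at h2
    have hbs : (⟨b, hb⟩ : W) ≠ 0 := fun h => hb0 (congrArg Subtype.val h)
    have hs0 : s ≠ 0 := by
      rintro rfl
      rw [zero_smul, add_zero] at h2
      exact hbs h2
    refine Module.End.hasEigenvalue_of_hasEigenvector (x := (⟨b, hb⟩ : W)) ⟨?_, hbs⟩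
    rw [Module.End.mem_eigenspace_iff]
    show π (Λ q ⟨b, hb⟩) = -s⁻¹ • (⟨b, hb⟩ : W)
    have h4 : π (Λ q ⟨b, hb⟩) = s⁻¹ • (s • π (Λ q ⟨b, hb⟩)) := by
      rw [smul_smul, inv_mul_cancel₀ hs0, one_smul]
    rw [h4, ← neg_eq_of_add_eq_zero_right h2, smul_neg, neg_smul]

/-- Finite avoidance. -/
theorem exists_avoid [FiniteDimensional ℝ V] (S : Set V) (hS : S.Finite) (h0 : ∀ v ∈ S, v ≠ 0) :
    ∃ φ : Module.Dual ℝ V, ∀ v ∈ S, φ v ≠ 0 := by
  have := hS.to_subtype
  obtain ⟨φ, hφ⟩ := Module.exists_dual_forall_apply_ne_zero (K := ℝ) (fun v : S => (v : V))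
    (fun v => h0 v v.2)
  exact ⟨φ, fun v hv => hφ ⟨v, hv⟩⟩

/-- A generic linear form has a good zero on a line through a good point. -/
theorem line_zero [FiniteDimensional ℝ V] (I : Submodule ℝ (LinearMap.BilinForm ℝ V))
    (L : Submodule ℝ V) (hiso : ∀ β ∈ I, ∀ z ∈ L, ∀ w ∈ L, β z w = 0) {p q : V} (hp : p ∈ L)
    (hq : q ∈ L) (hT : Tan I p ≤ L) (hpq : ∀ a b : ℝ, a • p + b • q = 0 → a = 0 ∧ b = 0)
    (B : Set ℝ) (hB : B.Finite) :
    ∃ S : Set V, S.Finite ∧ (∀ v ∈ S, v ≠ 0) ∧ ∀ φ : Module.Dual ℝ V, (∀ v ∈ S, φ v ≠ 0) →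
      ∃ s : ℝ, s ≠ 0 ∧ s ∉ B ∧ φ (p + s • q) = 0 ∧ Tan I (p + s • q) ≤ L ∧ φ p ≠ 0 ∧ φ q ≠ 0 := by
  refine ⟨{p} ∪ {q} ∪ (fun s : ℝ => p + s • q) '' ({s : ℝ | ¬ Tan I (p + s • q) ≤ L} ∪ B),
    ?_, ?_, ?_⟩
  · exact ((Set.finite_singleton p).union (Set.finite_singleton q)).union
      (((finite_bad I L hiso hp hq hT).union hB).image _)
  · rintro v ((rfl | rfl) | ⟨s, _, rfl⟩) h0
    · have := hpq 1 0 (by rw [h0]; simp)
      exact one_ne_zero this.1
    · have := hpq 0 1 (by rw [h0]; simp)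
      exact one_ne_zero this.2
    · have := hpq 1 s (by rw [one_smul]; exact h0)
      exact one_ne_zero this.1
  · intro φ hφ
    have h1 : φ p ≠ 0 := hφ p (Or.inl (Or.inl rfl))
    have h2 : φ q ≠ 0 := hφ q (Or.inl (Or.inr rfl))
    have h3 : φ (p + (-(φ p / φ q)) • q) = 0 := by
      rw [map_add, map_smul, smul_eq_mul]
      field_simp
      ring
    have h4 : ∀ s ∈ ({s : ℝ | ¬ Tan I (p + s • q) ≤ L} ∪ B), s ≠ -(φ p / φ q) := by
      rintro s hs rfl
      exact hφ _ (Or.inr ⟨_, hs, rfl⟩) h3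
    refine ⟨-(φ p / φ q), neg_ne_zero.2 (div_ne_zero h1 h2), ?_, h3, ?_, h1, h2⟩
    · intro hcon
      exact h4 _ (Or.inr hcon) rfl
    · by_contra hcon
      exact h4 _ (Or.inl hcon) rfl

end

end Pool.Agent.Helper80.Flats
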