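import Pool.Agent.Helper80.Flats.Basic

/-!
# The choice of linear forms
-/

namespace Pool.Agent.Helper80.Flats

open Finset

section

variable {V : Type*} [AddCommGroup V] [Module ℝ V]

/-- The common zeros in `L` of the first `r` forms. -/
def cut (L : Submodule ℝ V) (f : ℕ → Module.Dual ℝ V) (r : ℕ) : Submodule ℝ V where
  carrier := {w | w ∈ L ∧ ∀ i < r, f i w = 0}
  add_mem' := by
    rintro a b ⟨ha, ha'⟩ ⟨hb, hb'⟩
    exact ⟨L.add_mem ha hb, fun i hi => by rw [map_add, ha' i hi, hb' i hi, add_zero]⟩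
  zero_mem' := ⟨L.zero_mem, fun i _ => map_zero _⟩
  smul_mem' := by
    rintro c a ⟨ha, ha'⟩
    exact ⟨L.smul_mem c ha, fun i hi => by rw [map_smul, ha' i hi, smul_zero]⟩

theorem mem_cut {L : Submodule ℝ V} {f : ℕ → Module.Dual ℝ V} {r : ℕ} {w : V} :
    w ∈ cut L f r ↔ w ∈ L ∧ ∀ i < r, f i w = 0 := Iff.rfl

theorem cut_zero (L : Submodule ℝ V) (f : ℕ → Module.Dual ℝ V) : cut L f 0 = L := by
  ext w
  rw [mem_cut]
  exact ⟨fun h => h.1, fun h => ⟨h, fun i hi => absurd hi (Nat.not_lt_zero i)⟩⟩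

theorem cut_congr (L : Submodule ℝ V) {f g : ℕ → Module.Dual ℝ V} {r : ℕ}
    (h : ∀ i < r, f i = g i) : cut L f r = cut L g r := by
  ext w
  rw [mem_cut, mem_cut]
  refine and_congr_right fun _ => forall₂_congr fun i hi => ?_
  rw [h i hi]

theorem cut_update (L : Submodule ℝ V) (f : ℕ → Module.Dual ℝ V) (r : ℕ)
    (φ : Module.Dual ℝ V) :
    cut L (Function.update f r φ) (r + 1) = cut L f r ⊓ LinearMap.ker φ := by
  ext w
  rw [Submodule.mem_inf, mem_cut, mem_cut, LinearMap.mem_ker]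
  constructor
  · rintro ⟨h1, h2⟩
    refine ⟨⟨h1, fun i hi => ?_⟩, ?_⟩
    · have := h2 i (by omega)
      rwa [Function.update_of_ne (by omega)] at this
    · have := h2 r (by omega)
      rwa [Function.update_self] at this
  · rintro ⟨⟨h1, h2⟩, h3⟩
    refine ⟨h1, fun i hi => ?_⟩
    by_cases h : i = r
    · subst h
      rw [Function.update_self]
      exact h3
    · rw [Function.update_of_ne h]
      exact h2 i (by omega)

variable [FiniteDimensional ℝ V]

theorem finrank_inf_ker (U : Submodule ℝ V) (φ : Module.Dual ℝ V) {p : V} (hp : p ∈ U)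
    (hφ : φ p ≠ 0) : Module.finrank ℝ ↥(U ⊓ LinearMap.ker φ) + 1 = Module.finrank ℝ U := by
  have h1 := LinearMap.finrank_range_add_finrank_ker (φ.comp U.subtype)
  have h2 : LinearMap.range (φ.comp U.subtype) = ⊤ :=
    LinearMap.range_eq_top.2 (LinearMap.surjective (fun h => hφ (by
      have := LinearMap.congr_fun h ⟨p, hp⟩
      exact this)))
  rw [h2, finrank_top, Module.finrank_self] at h1
  have h3 : (LinearMap.ker (φ.comp U.subtype)).map U.subtype = U ⊓ LinearMap.ker φ := by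
    rw [LinearMap.ker_comp, Submodule.map_comap_subtype]
  rw [← h3, LinearEquiv.finrank_eq (Submodule.equivSubtypeMap U _).symm]
  omega

omit [FiniteDimensional ℝ V] in
theorem exists_indep (U : Submodule ℝ V) (hU : 2 ≤ Module.finrank ℝ U) {p : V}
    (hp0 : p ≠ 0) : ∃ q ∈ U, ∀ a b : ℝ, a • p + b • q = 0 → a = 0 ∧ b = 0 := by
  have h1 : ¬ U ≤ Submodule.span ℝ {p} := by
    intro h
    have := Submodule.finrank_mono h
    rw [finrank_span_singleton hp0] at this
    omega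
  rw [SetLike.not_le_iff_exists] at h1
  obtain ⟨q, hq, hqp⟩ := h1
  refine ⟨q, hq, fun a b hab => ?_⟩
  have hb : b = 0 := by
    by_contra hb
    apply hqp
    rw [Submodule.mem_span_singleton]
    refine ⟨-(b⁻¹ * a), ?_⟩
    have h2 : b • q = -(a • p) := by
      rw [eq_neg_iff_add_eq_zero, add_comm]
      exact hab
    calc -(b⁻¹ * a) • p = b⁻¹ • (-(a • p)) := by rw [smul_neg, smul_smul, neg_smul]
      _ = b⁻¹ • (b • q) := by rw [h2]
      _ = q := by rw [smul_smul, inv_mul_cancel₀ hb, one_smul]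
  refine ⟨?_, hb⟩
  rw [hb, zero_smul, add_zero, smul_eq_zero] at hab
  exact hab.resolve_right hp0

variable {F : Type*} [Fintype F]

theorem stepA (I : F → Submodule ℝ (LinearMap.BilinForm ℝ V)) (L : F → Submodule ℝ V)
    (a : F → ℕ) (hdim : ∀ k, Module.finrank ℝ (L k) = a k + 1)
    (hiso : ∀ k, ∀ β ∈ I k, ∀ z ∈ L k, ∀ w ∈ L k, β z w = 0)
    (hgood : ∀ k, ∃ z ∈ L k, z ≠ 0 ∧ Tan (I k) z ≤ L k) (r : ℕ) :
    ∃ f : ℕ → Module.Dual ℝ V, ∀ k,
      Module.finrank ℝ (cut (L k) f (min r (a k))) + min r (a k) = a k + 1 ∧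
      ∃ z ∈ cut (L k) f (min r (a k)), z ≠ 0 ∧ Tan (I k) z ≤ L k := by
  classical
  induction r with
  | zero =>
    refine ⟨fun _ => 0, fun k => ?_⟩
    rw [Nat.zero_min, cut_zero]
    exact ⟨by rw [hdim, add_zero], hgood k⟩
  | succ r ih =>
    obtain ⟨f, hf⟩ := ih
    have hS : ∀ k, ∃ S : Set V, S.Finite ∧ (∀ v ∈ S, v ≠ 0) ∧ (r < a k →
        ∀ φ : Module.Dual ℝ V, (∀ v ∈ S, φ v ≠ 0) →
          (∃ p ∈ cut (L k) f r, φ p ≠ 0) ∧
          ∃ z ∈ cut (L k) f r, φ z = 0 ∧ z ≠ 0 ∧ Tan (I k) z ≤ L k) := by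
      intro k
      by_cases hk : r < a k
      · obtain ⟨h1, p, hp, hp0, hpT⟩ := hf k
        rw [min_eq_left hk.le] at h1 hp
        obtain ⟨q, hq, hpq⟩ := exists_indep (cut (L k) f r) (by omega) hp0
        obtain ⟨S, hS1, hS2, hS3⟩ := line_zero (I k) (L k) (hiso k) hp.1 hq.1 hpT hpq ∅
          Set.finite_empty
        refine ⟨S, hS1, hS2, fun _ φ hφ => ?_⟩
        obtain ⟨s, hs0, _, hs1, hs2, hs3, _⟩ := hS3 φ hφ
        refine ⟨⟨p, hp, hs3⟩, p + s • q, ?_, hs1, ?_, hs2⟩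
        · exact Submodule.add_mem _ hp (Submodule.smul_mem _ s hq)
        · intro h0
          exact one_ne_zero (hpq 1 s (by rw [one_smul]; exact h0)).1
      · exact ⟨∅, Set.finite_empty, fun v hv => absurd hv (Set.notMem_empty v),
          fun h => absurd h hk⟩
    choose S hS1 hS2 hS3 using hS
    obtain ⟨φ, hφ⟩ := exists_avoid (⋃ k, S k) (Set.finite_iUnion hS1) (by
      intro v hv
      obtain ⟨k, hk⟩ := Set.mem_iUnion.1 hv
      exact hS2 k v hk)
    refine ⟨Function.update f r φ, fun k => ?_⟩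
    by_cases hk : r < a k
    · obtain ⟨⟨p, hp, hpφ⟩, z, hz, hzφ, hz0, hzT⟩ := hS3 k hk φ fun v hv =>
        hφ v (Set.mem_iUnion.2 ⟨k, hv⟩)
      obtain ⟨h1, _⟩ := hf k
      rw [min_eq_left hk.le] at h1
      rw [min_eq_left (show r + 1 ≤ a k by omega), cut_update]
      refine ⟨?_, z, ⟨hz, hzφ⟩, hz0, hzT⟩
      have := finrank_inf_ker (cut (L k) f r) φ hp hpφ
      omega
    · have h1 := hf k
      rw [min_eq_right (by omega)] at h1 ⊢
      rwa [cut_congr (L k) (g := f)]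
      intro i hi
      exact Function.update_of_ne (by omega) _ _

theorem forms_one (I : F → Submodule ℝ (LinearMap.BilinForm ℝ V)) (L : F → Submodule ℝ V)
    (a : F → ℕ) (hdim : ∀ k, Module.finrank ℝ (L k) = a k + 1)
    (hiso : ∀ k, ∀ β ∈ I k, ∀ z ∈ L k, ∀ w ∈ L k, β z w = 0)
    (hgood : ∀ k, ∃ z ∈ L k, z ≠ 0 ∧ Tan (I k) z ≤ L k) :
    ∃ f : ℕ → Module.Dual ℝ V, ∀ k, ∃ (z : V) (q : ℕ → V), z ∈ L k ∧ z ≠ 0 ∧
      Tan (I k) z ≤ L k ∧
      (∀ i < a k, f i z = 0) ∧ (∀ w ∈ L k, (∀ i < a k, f i w = 0) → ∃ c : ℝ, w = c • z) ∧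
      ∀ j < a k, q j ∈ L k ∧ f j (q j) = 1 ∧ ∀ i < a k, i ≠ j → f i (q j) = 0 := by
  classical
  obtain ⟨f, hf⟩ := stepA I L a hdim hiso hgood (univ.sup a)
  refine ⟨f, fun k => ?_⟩
  obtain ⟨h1, z, hz, hz0, hzT⟩ := hf k
  rw [min_eq_right (Finset.le_sup (Finset.mem_univ k))] at h1 hz
  have h2 : Module.finrank ℝ (cut (L k) f (a k)) = 1 := by omega
  have huniq : ∀ w ∈ cut (L k) f (a k), ∃ c : ℝ, w = c • z := by
    intro w hw
    have hz' : (⟨z, hz⟩ : cut (L k) f (a k)) ≠ 0 := fun h => hz0 (congrArg Subtype.val h)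
    obtain ⟨c, hc⟩ := (finrank_eq_one_iff_of_nonzero' _ hz').1 h2 ⟨w, hw⟩
    exact ⟨c, (congrArg Subtype.val hc).symm⟩
  let Φ : L k →ₗ[ℝ] (Fin (a k) → ℝ) := LinearMap.pi fun i => (f i).comp (L k).subtype
  have hker : Module.finrank ℝ (LinearMap.ker Φ) = 1 := by
    have h3 : (LinearMap.ker Φ).map (L k).subtype = cut (L k) f (a k) := by
      ext w
      rw [Submodule.mem_map, mem_cut]
      constructor
      · rintro ⟨w, hw, rfl⟩
        refine ⟨w.2, fun i hi => ?_⟩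
        exact congrFun (LinearMap.mem_ker.1 hw) ⟨i, hi⟩
      · rintro ⟨h4, h5⟩
        refine ⟨⟨w, h4⟩, ?_, rfl⟩
        rw [LinearMap.mem_ker]
        funext i
        exact h5 i i.2
    rw [← h2, ← h3, LinearEquiv.finrank_eq (Submodule.equivSubtypeMap (L k) _).symm]
  have hsurj : LinearMap.range Φ = ⊤ := by
    apply Submodule.eq_top_of_finrank_eq
    have h3 := LinearMap.finrank_range_add_finrank_ker Φ
    rw [hdim, hker] at h3
    rw [Module.finrank_fintype_fun_eq_card, Fintype.card_fin]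
    omega
  have hq : ∀ j : Fin (a k), ∃ q : L k, Φ q = Pi.single j 1 := fun j =>
    LinearMap.range_eq_top.1 hsurj _
  choose q hq using hq
  refine ⟨z, fun j => if hj : j < a k then (q ⟨j, hj⟩ : V) else 0, hz.1, hz0, hzT, hz.2,
    fun w hw hw' => huniq w ⟨hw, hw'⟩, fun j hj => ?_⟩
  simp only [dif_pos hj]
  refine ⟨(q ⟨j, hj⟩).2, ?_, fun i hi hij => ?_⟩
  · have := congrFun (hq ⟨j, hj⟩) ⟨j, hj⟩
    rw [Pi.single_eq_same] at this
    exact this
  · have := congrFun (hq ⟨j, hj⟩) ⟨i, hi⟩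
    rw [Pi.single_eq_of_ne (by
      intro h
      exact hij (congrArg Fin.val h))] at this
    exact this

theorem stepB (I : F → Submodule ℝ (LinearMap.BilinForm ℝ V)) (L : F → Submodule ℝ V)
    (a : F → ℕ) (hiso : ∀ k, ∀ β ∈ I k, ∀ z ∈ L k, ∀ w ∈ L k, β z w = 0)
    (z : F → V) (q : F → ℕ → V) (hz : ∀ k, z k ∈ L k) (hzT : ∀ k, Tan (I k) (z k) ≤ L k)
    (hq : ∀ k, ∀ j < a k, q k j ∈ L k)
    (hzq : ∀ k, ∀ j < a k, ∀ c d : ℝ, c • z k + d • q k j = 0 → c = 0 ∧ d = 0) (r : ℕ) :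
    ∃ (g : ℕ → Module.Dual ℝ V) (s : F → ℕ → ℝ), ∀ k,
      (∀ i < r, i < a k → g i (z k) ≠ 0) ∧
      ∀ j < r, j < a k → s k j ≠ 0 ∧ Tan (I k) (z k + s k j • q k j) ≤ L k ∧
        g j (z k + s k j • q k j) = 0 ∧ g j (q k j) ≠ 0 ∧
        ∀ i < r, i < a k → i ≠ j → g i (z k + s k j • q k j) ≠ 0 := by
  classical
  induction r with
  | zero =>
    exact ⟨fun _ => 0, fun _ _ => 0, fun k => ⟨fun i hi => absurd hi (Nat.not_lt_zero i),
      fun i hi => absurd hi (Nat.not_lt_zero i)⟩⟩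
  | succ r ih =>
    obtain ⟨g, s, hgs⟩ := ih
    have hS : ∀ k, ∃ S : Set V, S.Finite ∧ (∀ v ∈ S, v ≠ 0) ∧ (r < a k →
        ∀ φ : Module.Dual ℝ V, (∀ v ∈ S, φ v ≠ 0) →
          (∃ t : ℝ, t ≠ 0 ∧ Tan (I k) (z k + t • q k r) ≤ L k ∧ φ (z k + t • q k r) = 0 ∧
            φ (q k r) ≠ 0 ∧ ∀ i < r, i < a k → g i (z k + t • q k r) ≠ 0) ∧
          φ (z k) ≠ 0 ∧ ∀ j < r, φ (z k + s k j • q k j) ≠ 0) := by
      intro k
      by_cases hk : r < a k
      · obtain ⟨h1, h2⟩ := hgs k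
        obtain ⟨S, hS1, hS2, hS3⟩ := line_zero (I k) (L k) (hiso k) (hz k) (hq k r hk) (hzT k)
          (hzq k r hk) (⋃ i : Fin r, {t : ℝ | g i (z k + t • q k r) = 0}) (by
            refine Set.finite_iUnion fun i => ?_
            refine Set.Subsingleton.finite ?_
            intro t ht t' ht'
            have ht1 : g i (z k + t • q k r) = 0 := ht
            have ht2 : g i (z k + t' • q k r) = 0 := ht'
            have h3 := h1 i i.2 (by have := i.2; omega)
            rw [map_add, map_smul, smul_eq_mul] at ht1 ht2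
            have h4 : (t - t') * g i (q k r) = 0 := by linear_combination ht1 - ht2
            rcases mul_eq_zero.1 h4 with h5 | h5
            · exact sub_eq_zero.1 h5
            · rw [h5, mul_zero, add_zero] at ht1
              exact absurd ht1 h3)
        refine ⟨S ∪ (fun j : Fin r => z k + s k j • q k j) '' Set.univ,
          hS1.union (Set.finite_univ.image _), ?_, fun _ φ hφ => ?_⟩
        · rintro v (hv | ⟨j, _, rfl⟩)
          · exact hS2 v hv
          · intro h0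
            have := hzq k j (by have := j.2; omega) 1 (s k j) (by rw [one_smul]; exact h0)
            exact one_ne_zero this.1
        · obtain ⟨t, ht0, htB, ht1, ht2, ht3, ht4⟩ := hS3 φ fun v hv => hφ v (Or.inl hv)
          refine ⟨⟨t, ht0, ht2, ht1, ht4, fun i hi _ hcon => ?_⟩, ht3, fun j hj => ?_⟩
          · exact htB (Set.mem_iUnion.2 ⟨⟨i, hi⟩, hcon⟩)
          · exact hφ _ (Or.inr ⟨⟨j, hj⟩, Set.mem_univ _, rfl⟩)
      · exact ⟨∅, Set.finite_empty, fun v hv => absurd hv (Set.notMem_empty v),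
          fun h => absurd h hk⟩
    choose S hS1 hS2 hS3 using hS
    obtain ⟨φ, hφ⟩ := exists_avoid (⋃ k, S k) (Set.finite_iUnion hS1) (by
      intro v hv
      obtain ⟨k, hk⟩ := Set.mem_iUnion.1 hv
      exact hS2 k v hk)
    have hS4 : ∀ k, ∃ t : ℝ, r < a k → t ≠ 0 ∧ Tan (I k) (z k + t • q k r) ≤ L k ∧
        φ (z k + t • q k r) = 0 ∧ φ (q k r) ≠ 0 ∧ ∀ i < r, i < a k → g i (z k + t • q k r) ≠ 0 := by
      intro k
      by_cases hk : r < a k
      · obtain ⟨⟨t, ht⟩, _⟩ := hS3 k hk φ fun v hv => hφ v (Set.mem_iUnion.2 ⟨k, hv⟩)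
        exact ⟨t, fun _ => ht⟩
      · exact ⟨0, fun h => absurd h hk⟩
    choose t ht using hS4
    refine ⟨Function.update g r φ, fun k => Function.update (s k) r (t k), fun k => ⟨?_, ?_⟩⟩
    · intro i hi hia
      by_cases h : i = r
      · subst h
        rw [Function.update_self]
        exact (hS3 k hia φ fun v hv => hφ v (Set.mem_iUnion.2 ⟨k, hv⟩)).2.1
      · rw [Function.update_of_ne h]
        exact (hgs k).1 i (by omega) hia
    · intro j hj hja
      by_cases h : j = r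
      · subst h
        obtain ⟨h1, h2, h3, h4, h5⟩ := ht k hja
        simp only [Function.update_self]
        refine ⟨h1, h2, h3, h4, fun i hi hia hij => ?_⟩
        rw [Function.update_of_ne hij]
        exact h5 i (by omega) hia
      · obtain ⟨h1, h2, h3, h4, h5⟩ := (hgs k).2 j (by omega) hja
        simp only [Function.update_of_ne h]
        refine ⟨h1, h2, h3, h4, fun i hi hia hij => ?_⟩
        by_cases h6 : i = r
        · subst h6
          rw [Function.update_self]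
          exact (hS3 k hia φ fun v hv => hφ v (Set.mem_iUnion.2 ⟨k, hv⟩)).2.2 j (by omega)
        · rw [Function.update_of_ne h6]
          exact h5 i (by omega) hia hij

end

end Pool.Agent.Helper80.Flats
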