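import Pool.Agent.Helper80.Flats.Choice

/-!
# Linear spaces of common zeros of quadratic forms

Let `L k` be different linear spaces, with levels and families `I k` of forms that vanish on the
spaces of the same and of higher levels, such that some point of `L k` has tangent space `L k` for
the forms in `I k`. If the dimension is monotone in the level, then the sum of the dimensions is at
most `2 ^ (dim V - 1)`.
-/

namespace Pool.Agent.Helper80.Flats

open Finset

variable {V : Type*} [AddCommGroup V] [Module ℝ V] [FiniteDimensional ℝ V]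

/-- The symmetric product of two linear forms. -/
noncomputable def prodForm (f g : Module.Dual ℝ V) : LinearMap.BilinForm ℝ V :=
  LinearMap.mk₂ ℝ (fun x y => f x * g y + g x * f y)
    (fun x x' y => by rw [map_add, map_add]; ring)
    (fun c x y => by rw [map_smul, map_smul]; simp only [smul_eq_mul]; ring)
    (fun x y y' => by rw [map_add, map_add]; ring)
    (fun c x y => by rw [map_smul, map_smul]; simp only [smul_eq_mul]; ring)

omit [FiniteDimensional ℝ V] in
theorem prodForm_apply (f g : Module.Dual ℝ V) (x y : V) :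
    prodForm f g x y = f x * g y + g x * f y := rfl

theorem sum_dim_le {F : Type*} [Fintype F] (I : F → Submodule ℝ (LinearMap.BilinForm ℝ V))
    (hsym : ∀ k, ∀ β ∈ I k, ∀ x y, β x y = β y x)
    (L : F → Submodule ℝ V) (hinj : Function.Injective L) (a : F → ℕ) (lvl : F → ℕ)
    (hdim : ∀ k, Module.finrank ℝ (L k) = a k + 1)
    (hmono : ∀ k l, lvl k ≤ lvl l → a k ≤ a l)
    (hiso : ∀ k l, lvl k ≤ lvl l → ∀ β ∈ I k, ∀ z ∈ L l, ∀ w ∈ L l, β z w = 0)
    (hgood : ∀ k, ∃ z ∈ L k, z ≠ 0 ∧ Tan (I k) z ≤ L k) :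
    ∑ k, (a k + 1) ≤ 2 ^ (Module.finrank ℝ V - 1) := by
  classical
  obtain ⟨f, hf⟩ := forms_one I L a hdim (fun k => hiso k k le_rfl) hgood
  choose z q hz hz0 hzT hfz huniq hq using hf
  have hzq : ∀ k, ∀ j < a k, ∀ c d : ℝ, c • z k + d • q k j = 0 → c = 0 ∧ d = 0 := by
    intro k j hj c d h
    have h1 := congrArg (f j) h
    rw [map_add, map_smul, map_smul, hfz k j hj, (hq k j hj).2.1, map_zero] at h1
    simp only [smul_eq_mul, mul_zero, mul_one, zero_add] at h1
    refine ⟨?_, h1⟩
    rw [h1, zero_smul, add_zero, smul_eq_zero] at h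
    exact h.resolve_right (hz0 k)
  obtain ⟨g, s, hgs⟩ := stepB I L a (fun k => hiso k k le_rfl) z q hz hzT
    (fun k j hj => (hq k j hj).1) hzq (univ.sup a)
  have hlt : ∀ k, ∀ i < a k, i < univ.sup a := fun k i hi =>
    lt_of_lt_of_le hi (Finset.le_sup (Finset.mem_univ k))
  let u : (Σ k, Fin (a k + 1)) → V := fun p =>
    if (p.2 : ℕ) < a p.1 then z p.1 + s p.1 p.2 • q p.1 p.2 else z p.1
  have hu1 : ∀ p : Σ k, Fin (a k + 1), (p.2 : ℕ) < a p.1 →
      u p = z p.1 + s p.1 p.2 • q p.1 p.2 := fun p hp => if_pos hp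
  have hu2 : ∀ p : Σ k, Fin (a k + 1), ¬ (p.2 : ℕ) < a p.1 → u p = z p.1 := fun p hp =>
    if_neg hp
  have huL : ∀ p, u p ∈ L p.1 := by
    intro p
    by_cases hp : (p.2 : ℕ) < a p.1
    · rw [hu1 p hp]
      exact (L p.1).add_mem (hz _) ((L p.1).smul_mem _ (hq _ _ hp).1)
    · rw [hu2 p hp]
      exact hz _
  have hu0 : ∀ p, u p ≠ 0 := by
    intro p
    by_cases hp : (p.2 : ℕ) < a p.1
    · rw [hu1 p hp]
      intro h0
      exact one_ne_zero (hzq p.1 p.2 hp 1 (s p.1 p.2) (by rw [one_smul]; exact h0)).1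
    · rw [hu2 p hp]
      exact hz0 _
  have huT : ∀ p, Tan (I p.1) (u p) ≤ L p.1 := by
    intro p
    by_cases hp : (p.2 : ℕ) < a p.1
    · rw [hu1 p hp]
      exact ((hgs p.1).2 p.2 (hlt _ _ hp) hp).2.1
    · rw [hu2 p hp]
      exact hzT _
  -- the values of the forms
  have hfu : ∀ p : Σ k, Fin (a k + 1), ∀ i < a p.1, i ≠ p.2 → f i (u p) = 0 := by
    intro p i hi hip
    by_cases hp : (p.2 : ℕ) < a p.1
    · rw [hu1 p hp, map_add, map_smul, hfz _ i hi, (hq _ _ hp).2.2 i hi hip, smul_zero, add_zero]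
    · rw [hu2 p hp, hfz _ i hi]
  have hfu' : ∀ p : Σ k, Fin (a k + 1), (p.2 : ℕ) < a p.1 → f p.2 (u p) ≠ 0 := by
    intro p hp
    rw [hu1 p hp, map_add, map_smul, hfz _ _ hp, (hq _ _ hp).2.1, smul_eq_mul, mul_one, zero_add]
    exact ((hgs p.1).2 p.2 (hlt _ _ hp) hp).1
  have hgu : ∀ p : Σ k, Fin (a k + 1), (p.2 : ℕ) < a p.1 → g p.2 (u p) = 0 := by
    intro p hp
    rw [hu1 p hp]
    exact ((hgs p.1).2 p.2 (hlt _ _ hp) hp).2.2.1
  have hgu' : ∀ p : Σ k, Fin (a k + 1), ∀ i < a p.1, i ≠ p.2 → g i (u p) ≠ 0 := by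
    intro p i hi hip
    by_cases hp : (p.2 : ℕ) < a p.1
    · rw [hu1 p hp]
      exact ((hgs p.1).2 p.2 (hlt _ _ hp) hp).2.2.2.2 i (hlt _ _ hi) hi hip
    · rw [hu2 p hp]
      exact (hgs p.1).1 i (hlt _ _ hi) hi
  have hkey : ∀ p p' : Σ k, Fin (a k + 1), ∀ c : ℝ, c ≠ 0 → u p = c • u p' →
      lvl p.1 ≤ lvl p'.1 → p.1 = p'.1 := by
    intro p p' c hc hpp hle
    have h1 : L p'.1 ≤ L p.1 := by
      refine le_trans ?_ (huT p)
      rw [hpp, Tan_smul hc]
      intro w hw β hβ
      exact hiso _ _ hle β hβ _ (huL p') _ hw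
    have h2 : L p'.1 = L p.1 := by
      refine Submodule.eq_of_le_of_finrank_le h1 ?_
      rw [hdim, hdim]
      have := hmono _ _ hle
      omega
    exact (hinj h2).symm
  have hmain := card_le_of_levels u (fun p => lvl p.1) ?_ ?_
  · rw [Fintype.card_sigma] at hmain
    simpa using hmain
  · rintro p p' c hpp
    have hc : c ≠ 0 := by
      rintro rfl
      rw [zero_smul] at hpp
      exact hu0 p hpp
    have h3 : p.1 = p'.1 := by
      rcases le_total (lvl p.1) (lvl p'.1) with hle | hle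
      · exact hkey p p' c hc hpp hle
      · refine (hkey p' p c⁻¹ (inv_ne_zero hc) ?_ hle).symm
        rw [hpp, smul_smul, inv_mul_cancel₀ hc, one_smul]
    obtain ⟨k, j⟩ := p
    obtain ⟨k', j'⟩ := p'
    have h3' : k = k' := h3
    subst h3'
    by_contra hne
    have hjj : (j : ℕ) ≠ j' := fun h => hne (by rw [Fin.ext h])
    by_cases hj : (j : ℕ) < a k
    · apply hfu' ⟨k, j⟩ hj
      rw [hpp, map_smul, hfu ⟨k, j'⟩ j hj hjj, smul_zero]
    · have hj' : (j' : ℕ) < a k := by
        have h4 := j.2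
        have h5 := j'.2
        omega
      apply hfu' ⟨k, j'⟩ hj'
      have h6 := hfu ⟨k, j⟩ j' hj' (Ne.symm hjj)
      rw [hpp, map_smul, smul_eq_mul, mul_eq_zero] at h6
      exact h6.resolve_left hc
  · rintro p t ht
    have htL : t ∈ L p.1 := by
      refine huT p fun β hβ => ?_
      exact ht β (hsym _ β hβ) fun p' hp' => hiso _ _ hp' β hβ _ (huL p') _ (huL p')
    have hr : ∀ i < a p.1, f i (u p) * g i t + g i (u p) * f i t = 0 := by
      intro i hi
      refine ht (prodForm (f i) (g i)) (fun x y => ?_) fun p' hp' => ?_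
      · rw [prodForm_apply, prodForm_apply]
        ring
      · have hi' : i < a p'.1 := lt_of_lt_of_le hi (hmono _ _ hp')
        rw [prodForm_apply]
        by_cases h : i = p'.2
        · subst h
          rw [hgu p' hi']
          ring
        · rw [hfu p' i hi' h]
          ring
    have hft : ∀ i < a p.1, i ≠ p.2 → f i t = 0 := by
      intro i hi hip
      have h1 := hr i hi
      rw [hfu p i hi hip, zero_mul, zero_add, mul_eq_zero] at h1
      exact h1.resolve_left (hgu' p i hi hip)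
    by_cases hp : (p.2 : ℕ) < a p.1
    · have hgt : g p.2 t = 0 := by
        have h1 := hr p.2 hp
        rw [hgu p hp, zero_mul, add_zero, mul_eq_zero] at h1
        exact h1.resolve_left (hfu' p hp)
      obtain ⟨c, hc⟩ := huniq p.1 (t - f p.2 t • q p.1 p.2)
        ((L p.1).sub_mem htL ((L p.1).smul_mem _ (hq _ _ hp).1)) (by
          intro i hi
          rw [map_sub, map_smul, smul_eq_mul]
          by_cases h : i = p.2
          · subst h
            rw [(hq _ _ hp).2.1, mul_one, sub_self]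
          · rw [hft i hi h, (hq _ _ hp).2.2 i hi h, mul_zero, sub_zero])
      have h1 : t = c • z p.1 + f p.2 t • q p.1 p.2 := by
        rw [← hc]
        abel
      have h2 := congrArg (g p.2) h1
      rw [hgt, map_add, map_smul, map_smul, smul_eq_mul, smul_eq_mul] at h2
      have h3 := hgu p hp
      rw [hu1 p hp, map_add, map_smul, smul_eq_mul] at h3
      have h4 := ((hgs p.1).2 p.2 (hlt _ _ hp) hp).2.2.2.1
      have h5 : (f p.2 t - c * s p.1 p.2) * g p.2 (q p.1 p.2) = 0 := by
        linear_combination -h2 - c * h3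
      have h6 : f p.2 t = c * s p.1 p.2 := by
        rcases mul_eq_zero.1 h5 with h7 | h7
        · linarith
        · exact absurd h7 h4
      refine ⟨c, ?_⟩
      rw [hu1 p hp, smul_add, smul_smul, ← h6]
      exact h1
    · rw [hu2 p hp]
      refine huniq p.1 t htL fun i hi => hft i hi ?_
      rintro rfl
      exact hp hi

end Pool.Agent.Helper80.Flats
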