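import Pool.Agent.Helper80.Flats.Count
import Pool.Agent.Helper73.PsdCount

/-!
# Layered families of indices of a rank one factorization
-/

namespace Pool.Agent.Helper80.Flats

open Finset Matrix

variable {ι κ : Type} {n : ℕ} {E : Type} [AddCommGroup E] [Module ℝ E]

/-- At most one of the numbers `x i ⬝ᵥ y j`, `j ∈ J`, is nonzero. -/
def Cov (x : ι → Fin n → ℝ) (y : κ → Fin n → ℝ) (J : Finset κ) : Prop :=
  ∀ j ∈ J, ∀ l ∈ J, j ≠ l → ∀ i, x i ⬝ᵥ y j = 0 ∨ x i ⬝ᵥ y l = 0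

/-- Admissible pairs. -/
def Adm (x : ι → Fin n → ℝ) (y : κ → Fin n → ℝ) (G : Finset κ) (lvl : κ → ℕ)
    (J : κ → Finset κ) (k : κ) (i i' : ι) : Prop :=
  ∀ l ∈ G, lvl k ≤ lvl l → (∀ j ∈ J l, x i ⬝ᵥ y j = 0) ∨ (∀ j ∈ J l, x i' ⬝ᵥ y j = 0)

/-- The condition on one index of a layered family. -/
def GoodAt (v : ι → E) (h : κ → Module.Dual ℝ E) (x : ι → Fin n → ℝ) (y : κ → Fin n → ℝ)
    (G : Finset κ) (lvl : κ → ℕ) (J : κ → Finset κ) (C : Finset κ) (k : κ) : Prop :=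
  k ∈ J k ∧ C ⊆ J k ∧ C.Nonempty ∧ Cov x y (J k) ∧
    (∀ g : Module.Dual ℝ E, (∀ i, (∀ j ∈ C, h j (v i) = 0) → g (v i) = 0) →
      ∃ c : κ → ℝ, ∀ i, g (v i) = ∑ j ∈ C, c j * h j (v i)) ∧
    ∀ t : Fin n → ℝ, (∀ i, (∃ j ∈ C, x i ⬝ᵥ y j ≠ 0) → x i ⬝ᵥ t = 0) →
      (∀ i i', (∃ j ∈ C, x i' ⬝ᵥ y j ≠ 0) → Adm x y G lvl J k i i' → x i ⬝ᵥ t = 0) →
      t ∈ Submodule.span ℝ (y '' {j | j ∈ J k ∧ j ∉ C})

/-- The form of a weight. -/
noncomputable def wForm [Fintype ι] (x : ι → Fin n → ℝ) (β : ι → ℝ) :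
    LinearMap.BilinForm ℝ (Fin n → ℝ) :=
  LinearMap.mk₂ ℝ (fun z w => ∑ i, β i * ((x i ⬝ᵥ z) * (x i ⬝ᵥ w)))
    (fun z z' w => by
      rw [← Finset.sum_add_distrib]
      exact Finset.sum_congr rfl fun i _ => by rw [dotProduct_add]; ring)
    (fun c z w => by
      rw [smul_eq_mul, Finset.mul_sum]
      exact Finset.sum_congr rfl fun i _ => by rw [dotProduct_smul, smul_eq_mul]; ring)
    (fun z w w' => by
      rw [← Finset.sum_add_distrib]
      exact Finset.sum_congr rfl fun i _ => by rw [dotProduct_add]; ring)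
    (fun c z w => by
      rw [smul_eq_mul, Finset.mul_sum]
      exact Finset.sum_congr rfl fun i _ => by rw [dotProduct_smul, smul_eq_mul]; ring)

theorem wForm_apply [Fintype ι] (x : ι → Fin n → ℝ) (β : ι → ℝ) (z w : Fin n → ℝ) :
    wForm x β z w = ∑ i, β i * ((x i ⬝ᵥ z) * (x i ⬝ᵥ w)) := rfl

/-- The form of a pair. -/
noncomputable def pForm (a b : Fin n → ℝ) : LinearMap.BilinForm ℝ (Fin n → ℝ) :=
  prodForm (dotProductBilin ℝ ℝ a) (dotProductBilin ℝ ℝ b)

theorem pForm_apply (a b z w : Fin n → ℝ) :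
    pForm a b z w = (a ⬝ᵥ z) * (b ⬝ᵥ w) + (b ⬝ᵥ z) * (a ⬝ᵥ w) := rfl

theorem dot_sum_single {x : ι → Fin n → ℝ} {y : κ → Fin n → ℝ} {J C : Finset κ} (hC : C ⊆ J)
    (hJ : Cov x y J) (c : κ → ℝ) {j : κ} (hj : j ∈ C) {i : ι} (hi : x i ⬝ᵥ y j ≠ 0) :
    x i ⬝ᵥ (∑ l ∈ C, c l • y l) = c j * (x i ⬝ᵥ y j) := by
  rw [dotProduct_sum, Finset.sum_eq_single j]
  · rw [dotProduct_smul, smul_eq_mul]
  · intro l hl hlj
    rw [dotProduct_smul, (hJ l (hC hl) j (hC hj) hlj i).resolve_right hi, smul_zero]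
  · exact fun h => absurd hj h

theorem cov_indep {x : ι → Fin n → ℝ} {y : κ → Fin n → ℝ} {J : Finset κ} (hJ : Cov x y J)
    (hne : ∀ j, ∃ i, x i ⬝ᵥ y j ≠ 0) (c : κ → ℝ) (hc : ∑ l ∈ J, c l • y l = 0) :
    ∀ j ∈ J, c j = 0 := by
  intro j hj
  obtain ⟨i, hi⟩ := hne j
  have h1 := dot_sum_single (Finset.Subset.refl J) hJ c hj hi
  rw [hc, dotProduct_zero] at h1
  exact (mul_eq_zero.1 h1.symm).resolve_right hi

theorem finrank_cov {x : ι → Fin n → ℝ} {y : κ → Fin n → ℝ} {J : Finset κ} (hJ : Cov x y J)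
    (hne : ∀ j, ∃ i, x i ⬝ᵥ y j ≠ 0) :
    Module.finrank ℝ (Submodule.span ℝ (y '' (J : Set κ))) = J.card := by
  classical
  have hli : LinearIndependent ℝ (fun j : J => y j) := by
    rw [Fintype.linearIndependent_iff]
    intro g hg j
    have h1 := cov_indep hJ hne (fun l => if hl : l ∈ J then g ⟨l, hl⟩ else 0) (by
      rw [← hg, ← Finset.sum_coe_sort J]
      refine Finset.sum_congr rfl fun l _ => ?_
      simp only [Finset.coe_mem, dif_pos, Subtype.coe_eta]) j j.2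
    simpa using h1
  have h2 := finrank_span_eq_card hli
  rw [Fintype.card_coe] at h2
  have hset : y '' (J : Set κ) = Set.range (fun j : J => y j) := by
    ext w
    constructor
    · rintro ⟨j, hj, rfl⟩
      exact ⟨⟨j, hj⟩, rfl⟩
    · rintro ⟨j, rfl⟩
      exact ⟨j, j.2, rfl⟩
  rw [hset]
  exact h2

theorem mem_span_cov {y : κ → Fin n → ℝ} {J : Finset κ} {w : Fin n → ℝ}
    (hw : w ∈ Submodule.span ℝ (y '' (J : Set κ))) : ∃ c : κ → ℝ, w = ∑ j ∈ J, c j • y j := by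
  classical
  refine Submodule.span_induction ?_ ?_ ?_ ?_ hw
  · rintro _ ⟨j, hj, rfl⟩
    refine ⟨fun l => if l = j then 1 else 0, ?_⟩
    rw [Finset.sum_eq_single j]
    · simp
    · intro l _ hl
      simp [hl]
    · exact fun h => absurd hj h
  · exact ⟨0, by simp⟩
  · rintro a b _ _ ⟨c, rfl⟩ ⟨d, rfl⟩
    exact ⟨fun l => c l + d l, by
      rw [← Finset.sum_add_distrib]
      exact Finset.sum_congr rfl fun l _ => (add_smul _ _ _).symm⟩
  · rintro r a _ ⟨c, rfl⟩
    exact ⟨fun l => r * c l, by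
      rw [Finset.smul_sum]
      exact Finset.sum_congr rfl fun l _ => smul_smul _ _ _⟩

theorem dot_span_zero {y : κ → Fin n → ℝ} {J : Finset κ} {a w : Fin n → ℝ}
    (ha : ∀ j ∈ J, a ⬝ᵥ y j = 0) (hw : w ∈ Submodule.span ℝ (y '' (J : Set κ))) :
    a ⬝ᵥ w = 0 := by
  obtain ⟨c, rfl⟩ := mem_span_cov hw
  rw [dotProduct_sum]
  refine Finset.sum_eq_zero fun j hj => ?_
  rw [dotProduct_smul, ha j hj, smul_zero]

/-- **The size of a layered family.** -/
theorem card_layered_le [Fintype ι] [Fintype κ] (v : ι → E) (h : κ → Module.Dual ℝ E)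
    (hfac : ∀ k (g : Module.Dual ℝ E), (∀ i, h k (v i) = 0 → g (v i) = 0) →
      ∃ c : ℝ, ∀ i, g (v i) = c * h k (v i))
    (hinj : ∀ k l, (∀ i, h k (v i) = 0 ↔ h l (v i) = 0) → k = l)
    (hne : ∀ k, ∃ i, h k (v i) ≠ 0)
    (x : ι → Fin n → ℝ) (y : κ → Fin n → ℝ)
    (hS : ∀ i k, h k (v i) = (x i ⬝ᵥ y k) ^ 2)
    (G : Finset κ) (lvl : κ → ℕ) (J C : κ → Finset κ)
    (hG : ∀ k ∈ G, GoodAt v h x y G lvl J (C k) k)
    (hmono : ∀ k ∈ G, ∀ l ∈ G, lvl k ≤ lvl l → (J k).card ≤ (J l).card) :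
    G.card ≤ 2 ^ (n - 1) := by
  classical
  have h0 : ∀ i k, h k (v i) = 0 ↔ x i ⬝ᵥ y k = 0 := fun i k => by
    rw [hS, pow_eq_zero_iff two_ne_zero]
  have hne' : ∀ k, ∃ i, x i ⬝ᵥ y k ≠ 0 := by
    intro k
    obtain ⟨i, hi⟩ := hne k
    exact ⟨i, fun hcon => hi ((h0 i k).2 hcon)⟩
  obtain ⟨m, β, hβ, hβ'⟩ := Pool.Agent.Helper73.Psd.exists_relations v
  let T : κ → Set (LinearMap.BilinForm ℝ (Fin n → ℝ)) := fun k =>
    (Set.range fun j => wForm x (β j)) ∪
      {γ | ∃ i i', Adm x y G lvl J k i i' ∧ γ = pForm (x i) (x i')}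
  let I : κ → Submodule ℝ (LinearMap.BilinForm ℝ (Fin n → ℝ)) := fun k => Submodule.span ℝ (T k)
  have hIw : ∀ k j, wForm x (β j) ∈ I k := fun k j => Submodule.subset_span (Or.inl ⟨j, rfl⟩)
  have hIp : ∀ k i i', Adm x y G lvl J k i i' → pForm (x i) (x i') ∈ I k := fun k i i' hii =>
    Submodule.subset_span (Or.inr ⟨i, i', hii, rfl⟩)
  have hsym : ∀ k, ∀ γ ∈ I k, ∀ a b, γ a b = γ b a := by
    intro k γ hγ
    refine Submodule.span_induction ?_ ?_ ?_ ?_ hγ
    · rintro _ (⟨j, rfl⟩ | ⟨i, i', _, rfl⟩) a b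
      · simp only [wForm_apply]
        exact Finset.sum_congr rfl fun i _ => by ring
      · rw [pForm_apply, pForm_apply]
        ring
    · intro a b
      rfl
    · intro γ δ _ _ h1 h2 a b
      rw [LinearMap.add_apply, LinearMap.add_apply, LinearMap.add_apply, LinearMap.add_apply, h1,
        h2]
    · intro c γ _ h1 a b
      rw [LinearMap.smul_apply, LinearMap.smul_apply, LinearMap.smul_apply, LinearMap.smul_apply,
        h1]
  have hw0 : ∀ D : Finset κ, Cov x y D → ∀ m', ∀ a ∈ Submodule.span ℝ (y '' (D : Set κ)),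
      ∀ b ∈ Submodule.span ℝ (y '' (D : Set κ)), wForm x (β m') a b = 0 := by
    intro D hD m' a ha b hb
    have hgen : ∀ j ∈ D, ∀ l ∈ D, wForm x (β m') (y j) (y l) = 0 := by
      intro j hj l hl
      rw [wForm_apply]
      by_cases hjl : j = l
      · subst hjl
        have h1 : h j (∑ i, β m' i • v i) = 0 := by rw [hβ, map_zero]
        rw [map_sum] at h1
        rw [← h1]
        refine Finset.sum_congr rfl fun i _ => ?_
        rw [map_smul, smul_eq_mul, hS]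
        ring
      · refine Finset.sum_eq_zero fun i _ => ?_
        rcases hD j hj l hl hjl i with h1 | h1 <;> rw [h1] <;> ring
    obtain ⟨c, rfl⟩ := mem_span_cov ha
    obtain ⟨d, rfl⟩ := mem_span_cov hb
    rw [map_sum (wForm x (β m') (∑ j ∈ D, c j • y j))]
    refine Finset.sum_eq_zero fun l hl => ?_
    rw [map_sum (wForm x (β m')), LinearMap.sum_apply]
    refine Finset.sum_eq_zero fun j hj => ?_
    rw [map_smul, map_smul (wForm x (β m')), LinearMap.smul_apply, hgen j hj l hl, smul_zero,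
      smul_zero]
  have hiso : ∀ k ∈ G, ∀ l ∈ G, lvl k ≤ lvl l → ∀ γ ∈ I k,
      ∀ a ∈ Submodule.span ℝ (y '' (J l : Set κ)), ∀ b ∈ Submodule.span ℝ (y '' (J l : Set κ)),
      γ a b = 0 := by
    intro k _ l hl hkl γ hγ a ha b hb
    refine Submodule.span_induction (p := fun γ _ => γ a b = 0) ?_ ?_ ?_ ?_ hγ
    · rintro _ (⟨m', rfl⟩ | ⟨i, i', hii, rfl⟩)
      · exact hw0 (J l) (hG l hl).2.2.2.1 m' a ha b hb
      · rw [pForm_apply]
        rcases hii l hl hkl with h1 | h1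
        · rw [dot_span_zero h1 ha, dot_span_zero h1 hb]
          ring
        · rw [dot_span_zero h1 ha, dot_span_zero h1 hb]
          ring
    · rfl
    · intro γ δ _ _ h1 h2
      rw [LinearMap.add_apply, LinearMap.add_apply, h1, h2, add_zero]
    · intro c γ _ h1
      rw [LinearMap.smul_apply, LinearMap.smul_apply, h1, smul_zero]
  have hmemJ : ∀ D : Finset κ, Cov x y D → ∀ l, y l ∈ Submodule.span ℝ (y '' (D : Set κ)) →
      l ∈ D := by
    intro D hD l hl
    obtain ⟨c, hc⟩ := mem_span_cov hl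
    obtain ⟨j, hj, hcj⟩ : ∃ j ∈ D, c j ≠ 0 := by
      by_contra hcon
      push Not at hcon
      obtain ⟨i, hi⟩ := hne' l
      apply hi
      rw [hc, dotProduct_sum]
      refine Finset.sum_eq_zero fun j hj => ?_
      rw [hcon j hj, zero_smul, dotProduct_zero]
    have hsub : ∀ i, h l (v i) = 0 → h j (v i) = 0 := by
      intro i hi
      rw [h0] at hi ⊢
      by_contra hij
      have h1 := dot_sum_single (Finset.Subset.refl D) hD c hj hij
      rw [← hc, hi] at h1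
      exact (mul_ne_zero hcj hij) h1.symm
    obtain ⟨e, he⟩ := hfac l (h j) hsub
    have he0 : e ≠ 0 := by
      rintro rfl
      obtain ⟨i, hi⟩ := hne j
      exact hi (by rw [he, zero_mul])
    have : l = j := hinj l j fun i => ⟨hsub i, fun h1 => by
      rw [he, mul_eq_zero] at h1
      exact h1.resolve_left he0⟩
    rwa [this]
  -- the flats
  have hgood : ∀ k ∈ G, ∃ z ∈ Submodule.span ℝ (y '' (J k : Set κ)), z ≠ 0 ∧
      Tan (I k) z ≤ Submodule.span ℝ (y '' (J k : Set κ)) := by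
    intro k hk
    obtain ⟨hkJ, hCJ, hC, hJ, hcod, htan⟩ := hG k hk
    have hspan : ∀ c : κ → ℝ, ∑ j ∈ C k, c j • y j ∈ Submodule.span ℝ (y '' (J k : Set κ)) :=
      fun c => Submodule.sum_mem _ fun j hj => Submodule.smul_mem _ _
        (Submodule.subset_span ⟨j, hCJ hj, rfl⟩)
    refine ⟨∑ j ∈ C k, (1 : ℝ) • y j, hspan fun _ => 1, ?_, ?_⟩
    · obtain ⟨j, hj⟩ := hC
      obtain ⟨i, hi⟩ := hne' j
      intro hcon
      have h1 := dot_sum_single hCJ hJ (fun _ => 1) hj hi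
      rw [hcon, dotProduct_zero, one_mul] at h1
      exact hi h1.symm
    · intro w hw
      obtain ⟨g, hg⟩ := hβ' (fun i => (x i ⬝ᵥ (∑ j ∈ C k, (1 : ℝ) • y j)) * (x i ⬝ᵥ w))
        fun j => by
          have h1 := hw (wForm x (β j)) (hIw k j)
          rw [wForm_apply] at h1
          exact h1
      obtain ⟨c, hc⟩ := hcod g (by
        intro i hi
        rw [← hg]
        have h1 : x i ⬝ᵥ (∑ j ∈ C k, (1 : ℝ) • y j) = 0 := by
          rw [dotProduct_sum]
          refine Finset.sum_eq_zero fun j hj => ?_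
          rw [dotProduct_smul, (h0 i j).1 (hi j hj), smul_zero]
        rw [h1, zero_mul])
      have h2 := htan (w - ∑ j ∈ C k, c j • y j) (by
        rintro i ⟨j, hj, hij⟩
        have h3 := hc i
        rw [← hg, dot_sum_single hCJ hJ (fun _ => 1) hj hij, one_mul] at h3
        rw [Finset.sum_eq_single j (fun l hl hlj => by
          rw [(h0 i l).2 ((hJ l (hCJ hl) j (hCJ hj) hlj i).resolve_right hij), mul_zero])
          (fun hcon => absurd hj hcon), hS] at h3
        rw [dotProduct_sub, dot_sum_single hCJ hJ c hj hij, sub_eq_zero]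
        have h4 : (x i ⬝ᵥ y j) * (x i ⬝ᵥ w - c j * (x i ⬝ᵥ y j)) = 0 := by
          linear_combination h3
        exact sub_eq_zero.1 ((mul_eq_zero.1 h4).resolve_left hij)) (by
        rintro i i' ⟨j, hj, hij⟩ hii
        have h3 : ∀ l ∈ J k, x i ⬝ᵥ y l = 0 := (hii k hk le_rfl).resolve_right fun h4 =>
          hij (h4 j (hCJ hj))
        have h4 := hw _ (hIp k i i' hii)
        rw [pForm_apply, dot_sum_single hCJ hJ (fun _ => 1) hj hij, one_mul,
          dot_span_zero h3 (hspan fun _ => 1), zero_mul, zero_add, mul_eq_zero] at h4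
        rw [dotProduct_sub, h4.resolve_left hij, dot_span_zero h3 (hspan c), sub_zero])
      have h3 : w = (w - ∑ j ∈ C k, c j • y j) + ∑ j ∈ C k, c j • y j := by abel
      rw [h3]
      refine Submodule.add_mem _ (Submodule.span_mono ?_ h2) (hspan c)
      exact Set.image_mono fun j hj => hj.1
  let S : Finset (Submodule ℝ (Fin n → ℝ)) := G.image fun k =>
    Submodule.span ℝ (y '' (J k : Set κ))
  have hSmem : ∀ s : S, ∃ k ∈ G, Submodule.span ℝ (y '' (J k : Set κ)) = s := fun s =>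
    Finset.mem_image.1 s.2
  choose b hbG hbs using hSmem
  have hbfr : ∀ s : S, Module.finrank ℝ (s : Submodule ℝ (Fin n → ℝ)) = (J (b s)).card := by
    intro s
    rw [← hbs s]
    exact finrank_cov (hG _ (hbG s)).2.2.2.1 hne'
  have hbpos : ∀ s : S, 1 ≤ (J (b s)).card := fun s =>
    Finset.card_pos.2 ⟨_, (hG _ (hbG s)).1⟩
  have hsum := sum_dim_le (fun s : S => I (b s)) (fun s => hsym (b s))
    (fun s : S => (s : Submodule ℝ (Fin n → ℝ)))
    Subtype.val_injective (fun s => (J (b s)).card - 1) (fun s => lvl (b s))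
    (fun s => by have := hbfr s; have := hbpos s; omega)
    (fun s s' hss => by
      have h1 := hmono _ (hbG s) _ (hbG s') hss
      show (J (b s)).card - 1 ≤ (J (b s')).card - 1
      omega)
    (fun s s' hss γ hγ a ha c hc => hiso _ (hbG s) _ (hbG s') hss γ hγ a
      (by rw [hbs s']; exact ha) c (by rw [hbs s']; exact hc))
    (fun s => by
      have h1 := hgood _ (hbG s)
      rw [hbs s] at h1
      exact h1)
  rw [Module.finrank_fintype_fun_eq_card, Fintype.card_fin] at hsum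
  refine le_trans ?_ hsum
  rw [Finset.card_eq_sum_card_image (fun k => Submodule.span ℝ (y '' (J k : Set κ))) G,
    ← Finset.sum_coe_sort]
  refine Finset.sum_le_sum fun s _ => ?_
  rw [Nat.sub_add_cancel (hbpos s)]
  refine Finset.card_le_card fun l hl => ?_
  rw [Finset.mem_filter] at hl
  refine hmemJ (J (b s)) (hG _ (hbG s)).2.2.2.1 l ?_
  rw [hbs s, ← hl.2]
  exact Submodule.subset_span ⟨l, (hG l hl.1).1, rfl⟩

end Pool.Agent.Helper80.Flats
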