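import Pool.Agent.Helper80.Flats.Good
import Pool.Agent.Helper73.PsdFin

/-!
# Layered families of facets
-/

namespace Pool.Agent.Helper80.Flats

open Finset Matrix Pool.Agent.Helper73.Psd

/-- A staircase of length `m` in `W`: `w 0, ..., w (m - 1)` satisfy `W`, `w i` does not lie on
`g i`, and `w i` lies on `g j` for `i < j`. -/
def Stair {α β : Type} (I : α → β → Prop) (W : α → Prop) (m : ℕ) : Prop :=
  ∃ (w : Fin m → α) (g : Fin m → β),
    (∀ i, W (w i) ∧ ¬ I (w i) (g i)) ∧ ∀ i j, i < j → I (w i) (g j)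

/-- The elements `a` that miss an element of `C`, or have a partner `a'` that misses an element of
`C` such that for each `l ∈ G` of at least the level of `b` one of `a`, `a'` lies on all
elements of `J l`. -/
def Wide {α β : Type} (I : α → β → Prop) (G : Finset β) (lvl : β → ℕ) (J : β → Finset β)
    (C : Finset β) (b : β) (a : α) : Prop :=
  (∃ j ∈ C, ¬ I a j) ∨ ∃ a', (∃ j ∈ C, ¬ I a' j) ∧
    ∀ l ∈ G, lvl b ≤ lvl l → (∀ j ∈ J l, I a j) ∨ (∀ j ∈ J l, I a' j)

/-- Layered sets of facets of a `d`-polytope with incidence relation `I`. -/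
def Layered {α β : Type} (I : α → β → Prop) (d : ℕ) (G : Finset β) : Prop :=
  ∃ (lvl : β → ℕ) (J C : β → Finset β),
    (∀ b ∈ G, b ∈ J b ∧ C b ⊆ J b ∧ (C b).Nonempty ∧
      (∀ j ∈ J b, ∀ l ∈ J b, j ≠ l → ∀ a, I a j ∨ I a l) ∧
      Stair I (fun a => ∀ j ∈ C b, I a j) (d + 1 - (C b).card) ∧
      Stair I (Wide I G lvl J (C b) b) (d + 1 - ((J b).card - (C b).card))) ∧
    ∀ b ∈ G, ∀ l ∈ G, lvl b ≤ lvl l → (J b).card ≤ (J l).card

theorem Stair.mono {α β : Type} {I : α → β → Prop} {W W' : α → Prop} {m : ℕ}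
    (h : ∀ a, W a → W' a) (hs : Stair I W m) : Stair I W' m := by
  obtain ⟨w, g, h1, h2⟩ := hs
  exact ⟨w, g, fun i => ⟨h _ (h1 i).1, (h1 i).2⟩, h2⟩

theorem Stair.snoc {α β : Type} {I : α → β → Prop} {W W' : α → Prop} {m : ℕ}
    (hs : Stair I W m) {a : α} {b : β} (hW : ∀ a', W a' → W' a' ∧ I a' b) (ha : W' a)
    (hab : ¬ I a b) : Stair I W' (m + 1) := by
  obtain ⟨w, g, h1, h2⟩ := hs
  refine ⟨Fin.snoc w a, Fin.snoc g b, ?_, ?_⟩
  · intro i
    refine Fin.lastCases ?_ (fun i => ?_) i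
    · rw [Fin.snoc_last, Fin.snoc_last]
      exact ⟨ha, hab⟩
    · rw [Fin.snoc_castSucc, Fin.snoc_castSucc]
      exact ⟨(hW _ (h1 i).1).1, (h1 i).2⟩
  · intro i j hij
    have hi : ∃ i' : Fin m, i = i'.castSucc := by
      refine ⟨⟨i, ?_⟩, rfl⟩
      have h3 := j.2
      rw [Fin.lt_def] at hij
      omega
    obtain ⟨i, rfl⟩ := hi
    revert hij
    refine Fin.lastCases ?_ (fun j => ?_) j
    · intro _
      rw [Fin.snoc_castSucc, Fin.snoc_last]
      exact (hW _ (h1 i).1).2
    · intro hij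
      rw [Fin.snoc_castSucc, Fin.snoc_castSucc]
      exact h2 i j (by simpa using hij)

/-- Triangular systems of linear forms. -/
theorem finrank_tri {V : Type*} [AddCommGroup V] [Module ℝ V] [FiniteDimensional ℝ V] {m : ℕ}
    (φ : Fin m → Module.Dual ℝ V) (u : Fin m → V) (h0 : ∀ i, φ i (u i) ≠ 0)
    (h1 : ∀ i j, i < j → φ i (u j) = 0) :
    Module.finrank ℝ (LinearMap.ker (LinearMap.pi φ)) + m = Module.finrank ℝ V := by
  classical
  let T : Matrix (Fin m) (Fin m) ℝ := Matrix.of fun i j => φ i (u j)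
  have hdet : T.det ≠ 0 := by
    have h2 : T.det = ∏ i, T i i := Matrix.det_of_isLowerTriangular T (by
      intro i j hij
      exact h1 i j hij)
    rw [h2, Finset.prod_ne_zero_iff]
    exact fun i _ => h0 i
  have hsurj : LinearMap.range (LinearMap.pi φ) = ⊤ := by
    rw [LinearMap.range_eq_top]
    intro b
    refine ⟨∑ j, (T⁻¹ *ᵥ b) j • u j, ?_⟩
    have h2 : T *ᵥ (T⁻¹ *ᵥ b) = b := by
      rw [Matrix.mulVec_mulVec, Matrix.mul_nonsing_inv _ (isUnit_iff_ne_zero.2 hdet),
        Matrix.one_mulVec]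
    funext i
    rw [LinearMap.pi_apply, map_sum, ← congrFun h2 i, Matrix.mulVec, dotProduct]
    refine Finset.sum_congr rfl fun j _ => ?_
    rw [map_smul, smul_eq_mul, mul_comm]
    rfl
  have h2 := LinearMap.finrank_range_add_finrank_ker (LinearMap.pi φ)
  rw [hsurj, finrank_top, Module.finrank_fintype_fun_eq_card, Fintype.card_fin] at h2
  omega

section

variable {ι κ E : Type} [Fintype ι] [Fintype κ] [DecidableEq ι] [DecidableEq κ] [AddCommGroup E]
  [Module ℝ E] [FiniteDimensional ℝ E] {v : ι → E} {h : κ → Module.Dual ℝ E} {n : ℕ}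

/-- A face of rank `r` contains a staircase of length `r`. -/
theorem stair_face (C : Cfg v h n) : ∀ (r : ℕ) (T : Finset ι), IsFace v T → rk v T = r →
    Stair (fun i k => h k (v i) = 0) (fun i => i ∈ T) r := by
  intro r
  induction r with
  | zero =>
    intro T _ _
    exact ⟨fun i => i.elim0, fun i => i.elim0, fun i => i.elim0, fun i => i.elim0⟩
  | succ r ih =>
    intro T hT hr
    obtain ⟨w, hw⟩ : T.Nonempty := by
      rw [Finset.nonempty_iff_ne_empty]
      rintro rfl
      rw [rk, Finset.coe_empty, Set.image_empty, Submodule.span_empty, finrank_bot] at hr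
      omega
    obtain ⟨κ', _, c, C'⟩ := C.face T hT
    obtain ⟨Z, hZ⟩ := C'.exists_ne ⟨w, hw⟩
    have hZ' : h (c Z) (v w) ≠ 0 := hZ
    have h1 := C'.fac Z
    rw [rk_fv, zs_fv] at h1
    have hface : IsFace v (zs v (h (c Z)) T) := hT.trans _ fun i _ => C.nonneg _ _
    exact (ih _ hface (by omega)).snoc (a := w) (b := c Z)
      (fun a' ha' => ⟨(mem_zs.1 ha').1, (mem_zs.1 ha').2⟩) hw hZ'

/-- A facet contains a staircase of length `d`. -/
theorem stair_facet (C : Cfg v h n) {d : ℕ} (hd : d + 1 = n) (k : κ) :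
    Stair (fun i k => h k (v i) = 0) (fun i => h k (v i) = 0) d := by
  refine (stair_face C d _ (C.facet_face k) ?_).mono fun a ha => (mem_zs.1 ha).2
  have := C.fac k
  omega

/-- Facets that are disjoint from another facet form a layered family. -/
theorem layered_of_disjoint (C : Cfg v h n) {d : ℕ} (hd : d + 1 = n) (G : Finset κ)
    (hG : ∀ k ∈ G, ∃ k', ∀ i, ¬ (h k (v i) = 0 ∧ h k' (v i) = 0)) :
    Layered (fun i k => h k (v i) = 0) d G := by
  classical
  have hG' : ∀ k, ∃ k', k ∈ G → ∀ i, ¬ (h k (v i) = 0 ∧ h k' (v i) = 0) := by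
    intro k
    by_cases hk : k ∈ G
    · obtain ⟨k', hk'⟩ := hG k hk
      exact ⟨k', fun _ => hk'⟩
    · exact ⟨k, fun hcon => absurd hcon hk⟩
  choose o ho using hG'
  let J : κ → Finset κ := fun k =>
    if ∀ i, h k (v i) = 0 ∨ h (o k) (v i) = 0 then {k, o k} else {k}
  refine ⟨fun k => (J k).card, J, fun k => {k}, fun k hk => ?_, fun _ _ _ _ hle => hle⟩
  have hstair : Stair (fun i k => h k (v i) = 0) (fun i => ∀ j ∈ ({k} : Finset κ), h j (v i) = 0)
      (d + 1 - ({k} : Finset κ).card) := by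
    rw [Finset.card_singleton, Nat.add_sub_cancel]
    refine (stair_facet C hd k).mono fun a ha j hj => ?_
    rw [Finset.mem_singleton.1 hj]
    exact ha
  have hoff : ∀ i, h (o k) (v i) = 0 → ∃ j ∈ ({k} : Finset κ), ¬ h j (v i) = 0 := fun i hi =>
    ⟨k, Finset.mem_singleton_self k, fun hcon => ho k hk i ⟨hcon, hi⟩⟩
  by_cases hc : ∀ i, h k (v i) = 0 ∨ h (o k) (v i) = 0
  · have hJ : J k = {k, o k} := if_pos hc
    have hne : k ≠ o k := by
      intro hcon
      obtain ⟨i, hi⟩ := C.exists_ne' k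
      rcases hc i with h1 | h1
      · exact hi h1
      · rw [← hcon] at h1
        exact hi h1
    rw [hJ]
    refine ⟨Finset.mem_insert_self _ _,
      Finset.singleton_subset_iff.2 (Finset.mem_insert_self _ _), Finset.singleton_nonempty k, ?_,
      hstair, ?_⟩
    · intro j hj l hl hjl i
      rw [Finset.mem_insert, Finset.mem_singleton] at hj hl
      rcases hj with rfl | rfl
      · rcases hl with rfl | rfl
        · exact absurd rfl hjl
        · exact hc i
      · rcases hl with rfl | rfl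
        · exact (hc i).symm
        · exact absurd rfl hjl
    · rw [Finset.card_pair hne, Finset.card_singleton]
      exact (stair_facet C hd (o k)).mono fun a ha => Or.inl (hoff a ha)
  · have hJ : J k = {k} := if_neg hc
    rw [hJ]
    refine ⟨Finset.mem_singleton_self _, Finset.Subset.refl _, Finset.singleton_nonempty k, ?_,
      hstair, ?_⟩
    · intro j hj l hl hjl
      rw [Finset.mem_singleton] at hj hl
      exact absurd (hj.trans hl.symm) hjl
    · push Not at hc
      obtain ⟨i0, h1, h2⟩ := hc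
      rw [Finset.card_singleton, Nat.sub_self, Nat.sub_zero]
      exact (stair_facet C hd (o k)).snoc (a := i0) (b := o k)
        (fun a' ha' => ⟨Or.inl (hoff a' ha'), ha'⟩)
        (Or.inl ⟨k, Finset.mem_singleton_self k, h1⟩) h2

/-- **The size of a layered family of facets.** -/
theorem layered_card_le (C : Cfg v h n) (R : PsdFac v h n) {d : ℕ} (hd : d + 1 = n)
    (G : Finset κ) (hG : Layered (fun i k => h k (v i) = 0) d G) : G.card ≤ 2 ^ d := by
  classical
  obtain ⟨x, y, hS, _, _⟩ := C.rank_one R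
  obtain ⟨lvl, J, D, hL, hmono⟩ := hG
  have h0 : ∀ i k, h k (v i) = 0 ↔ x i ⬝ᵥ y k = 0 := fun i k => Cfg.zero_iff hS i k
  have hne' : ∀ k, ∃ i, x i ⬝ᵥ y k ≠ 0 := by
    intro k
    obtain ⟨i, hi⟩ := C.exists_ne' k
    exact ⟨i, fun hcon => hi ((h0 i k).2 hcon)⟩
  have hEd : Module.finrank ℝ (Module.Dual ℝ E) = n := by
    rw [Subspace.dual_finrank_eq, C.dim]
  have hmain := card_layered_le v h
    (fun k g hg => exists_mul_of_facet v (h k) g ((C.fac k).trans C.rank.symm) hg)
    (fun k l hkl => by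
      apply C.inj
      ext i
      simp only [mem_zs, Finset.mem_univ, true_and]
      exact hkl i) C.exists_ne' x y hS G lvl J D (fun k hk => ?_) hmono
  · have h1 : n - 1 = d := by omega
    rwa [h1] at hmain
  obtain ⟨hkJ, hDJ, hDne, hJ, ⟨w, g, hw, hwg⟩, ⟨w', g', hw', hwg'⟩⟩ := hL k hk
  have hJ' : Cov x y (J k) := by
    intro j hj l hl hjl i
    rcases hJ j hj l hl hjl i with h1 | h1
    · exact Or.inl ((h0 i j).1 h1)
    · exact Or.inr ((h0 i l).1 h1)
  have hsubcov : ∀ D' : Finset κ, D' ⊆ J k → Cov x y D' := fun D' hD' j hj l hl hjl i =>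
    hJ' j (hD' hj) l (hD' hl) hjl i
  have hcard : ∀ D' : Finset κ, D' ⊆ J k → D'.card ≤ n := by
    intro D' hD'
    rw [← finrank_cov (hsubcov D' hD') hne']
    refine (Submodule.finrank_le _).trans ?_
    rw [Module.finrank_fintype_fun_eq_card, Fintype.card_fin]
  refine ⟨hkJ, hDJ, hDne, hJ', ?_, ?_⟩
  · intro f hf
    let φ : Fin (d + 1 - (D k).card) → Module.Dual ℝ (Module.Dual ℝ E) := fun i =>
      Module.Dual.eval ℝ E (v (w i))
    have h3 := finrank_tri φ (fun j => h (g j)) (fun i => (hw i).2) hwg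
    rw [hEd] at h3
    have hle : Submodule.span ℝ (h '' (D k : Set κ)) ≤ LinearMap.ker (LinearMap.pi φ) := by
      rw [Submodule.span_le]
      rintro _ ⟨j, hj, rfl⟩
      rw [SetLike.mem_coe, LinearMap.mem_ker]
      funext i
      exact (hw i).1 j hj
    have hli : LinearIndependent ℝ (fun j : D k => h j) := by
      rw [Fintype.linearIndependent_iff]
      intro c hc j
      obtain ⟨i, hi⟩ := hne' j
      have h4 := LinearMap.congr_fun hc (v i)
      rw [LinearMap.sum_apply, Finset.sum_eq_single j] at h4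
      · rw [LinearMap.smul_apply, smul_eq_mul, LinearMap.zero_apply, mul_eq_zero] at h4
        exact h4.resolve_right fun h5 => hi ((h0 i j).1 h5)
      · intro l _ hlj
        rw [LinearMap.smul_apply, (h0 i l).2 ((hJ' l (hDJ l.2) j (hDJ j.2)
          (fun h5 => hlj (Subtype.ext h5)) i).resolve_right hi), smul_zero]
      · exact fun h5 => absurd (Finset.mem_univ j) h5
    have hset : h '' (D k : Set κ) = Set.range (fun j : D k => h j) := by
      ext f
      constructor
      · rintro ⟨j, hj, rfl⟩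
        exact ⟨⟨j, hj⟩, rfl⟩
      · rintro ⟨j, rfl⟩
        exact ⟨j, j.2, rfl⟩
    have h5 : Module.finrank ℝ (Submodule.span ℝ (h '' (D k : Set κ))) = (D k).card := by
      rw [hset, finrank_span_eq_card hli, Fintype.card_coe]
    have h6 : Submodule.span ℝ (h '' (D k : Set κ)) = LinearMap.ker (LinearMap.pi φ) := by
      refine Submodule.eq_of_le_of_finrank_eq hle ?_
      have := hcard (D k) hDJ
      omega
    have h7 : f ∈ Submodule.span ℝ (h '' (D k : Set κ)) := by
      rw [h6, LinearMap.mem_ker]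
      funext i
      exact hf _ (hw i).1
    rw [hset, Submodule.mem_span_range_iff_exists_fun] at h7
    obtain ⟨c, hc⟩ := h7
    refine ⟨fun j => if hj : j ∈ D k then c ⟨j, hj⟩ else 0, fun i => ?_⟩
    rw [← hc, LinearMap.sum_apply, ← Finset.sum_coe_sort (D k)]
    refine Finset.sum_congr rfl fun j _ => ?_
    simp
  · intro t ht ht'
    let φ : Fin (d + 1 - ((J k).card - (D k).card)) → Module.Dual ℝ (Fin n → ℝ) := fun i =>
      dotProductBilin ℝ ℝ (x (w' i))
    have hφ : ∀ i z, φ i z = x (w' i) ⬝ᵥ z := fun i z => rfl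
    have h3 := finrank_tri φ (fun j => y (g' j)) (fun i => by
      rw [hφ]
      exact fun h5 => (hw' i).2 ((h0 _ _).2 h5)) (fun i j hij => by
      rw [hφ]
      exact (h0 _ _).1 (hwg' i j hij))
    rw [Module.finrank_fintype_fun_eq_card, Fintype.card_fin] at h3
    have hset : {j | j ∈ J k ∧ j ∉ D k} = ((J k \ D k : Finset κ) : Set κ) := by
      ext j
      rw [Finset.mem_coe, Finset.mem_sdiff]
      rfl
    have hadm : ∀ i i', (∀ l ∈ G, lvl k ≤ lvl l → (∀ j ∈ J l, h j (v i) = 0) ∨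
        (∀ j ∈ J l, h j (v i') = 0)) → Adm x y G lvl J k i i' := by
      intro i i' hii l hl hkl
      rcases hii l hl hkl with h1 | h1
      · exact Or.inl fun j hj => (h0 i j).1 (h1 j hj)
      · exact Or.inr fun j hj => (h0 i' j).1 (h1 j hj)
    have hle : Submodule.span ℝ (y '' {j | j ∈ J k ∧ j ∉ D k}) ≤
        LinearMap.ker (LinearMap.pi φ) := by
      rw [Submodule.span_le]
      rintro _ ⟨j, ⟨hjJ, hjD⟩, rfl⟩
      rw [SetLike.mem_coe, LinearMap.mem_ker]
      funext i
      show x (w' i) ⬝ᵥ y j = 0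
      rcases (hw' i).1 with ⟨l, hl, hil⟩ | ⟨i', ⟨l, hl, hil⟩, hii⟩
      · refine (hJ' j hjJ l (hDJ hl) (fun h5 => hjD (h5 ▸ hl)) (w' i)).resolve_right ?_
        exact fun h5 => hil ((h0 _ _).2 h5)
      · rcases hii k hk le_rfl with h5 | h5
        · exact (h0 _ _).1 (h5 j hjJ)
        · exact absurd (h5 l (hDJ hl)) hil
    have h5 : Module.finrank ℝ (Submodule.span ℝ (y '' {j | j ∈ J k ∧ j ∉ D k})) =
        (J k).card - (D k).card := by
      rw [hset, finrank_cov (hsubcov _ Finset.sdiff_subset) hne',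
        Finset.card_sdiff_of_subset hDJ]
    have h6 : Submodule.span ℝ (y '' {j | j ∈ J k ∧ j ∉ D k}) =
        LinearMap.ker (LinearMap.pi φ) := by
      refine Submodule.eq_of_le_of_finrank_eq hle ?_
      have := hcard (J k) (Finset.Subset.refl _)
      omega
    rw [h6, LinearMap.mem_ker]
    funext i
    show x (w' i) ⬝ᵥ t = 0
    rcases (hw' i).1 with ⟨l, hl, hil⟩ | ⟨i', ⟨l, hl, hil⟩, hii⟩
    · exact ht (w' i) ⟨l, hl, fun h7 => hil ((h0 _ _).2 h7)⟩
    · exact ht' (w' i) i' ⟨l, hl, fun h7 => hil ((h0 _ _).2 h7)⟩ (hadm _ _ hii)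

end

end Pool.Agent.Helper80.Flats
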